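import Pool.Agent.H.MP_9bbf37_lc.Defs

namespace Pool.Agent.H.MP_9bbf37_lc

open Finset

variable {α : Type} [DecidableEq α] {k i : ℕ} {A : Alg α} {M0 : Finset α} {σ : List α}

/-- faults among the first `t` requests -/
def cst (k i : ℕ) (A : Alg α) (M0 : Finset α) (σ : List α) : ℕ → ℕ
  | 0 => 0
  | t + 1 => cst k i A M0 σ t +
    match σ[t]? with
    | none => 0
    | some p => if p ∈ mem k i A M0 σ t then 0 else 1

theorem cost_eq : cost k i A M0 σ = cst k i A M0 σ σ.length := by
  have : ∀ n, n ≤ σ.length → cst k i A M0 σ n =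
      (univ.filter fun t : Fin σ.length => t.1 < n ∧ σ[t] ∉ mem k i A M0 σ t).card := by
    intro n
    induction n with
    | zero => simp [cst]
    | succ n ih =>
      intro h
      have hn : n < σ.length := h
      rw [cst, ih hn.le, List.getElem?_eq_getElem hn]
      by_cases hp : σ[n] ∈ mem k i A M0 σ n
      · simp only [if_pos hp, add_zero]
        congr 1
        ext t
        simp only [mem_filter, mem_univ, true_and]
        refine and_congr_left fun h' => ⟨fun h => by omega, fun h2 => ?_⟩
        by_contra h3
        have : t = ⟨n, hn⟩ := Fin.ext (by simp only; omega)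
        subst this
        exact h' hp
      · simp only [if_neg hp]
        rw [← card_insert_of_notMem (a := (⟨n, hn⟩ : Fin σ.length)) (by simp)]
        congr 1
        ext t
        simp only [mem_insert, mem_filter, mem_univ, true_and]
        constructor
        · rintro (rfl | h)
          · exact ⟨by simp, hp⟩
          · exact ⟨by omega, h.2⟩
        · rintro ⟨h1, h2⟩
          by_cases h3 : t.1 < n
          · exact Or.inr ⟨h3, h2⟩
          · exact Or.inl (Fin.ext (by simp only; omega))
  rw [this _ le_rfl, cost]
  simp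

theorem hit {t : ℕ} {p : α} (h : σ[t]? = some p) (hp : p ∈ mem k i A M0 σ t) :
    mem k i A M0 σ (t + 1) = mem k i A M0 σ t ∧ cst k i A M0 σ (t + 1) = cst k i A M0 σ t := by
  simp [mem, cst, h, hp]

theorem fill {t : ℕ} {p : α} (h : σ[t]? = some p) (hp : p ∉ mem k i A M0 σ t)
    (hc : (mem k i A M0 σ t).card < k) :
    mem k i A M0 σ (t + 1) = insert p (mem k i A M0 σ t) ∧
      cst k i A M0 σ (t + 1) = cst k i A M0 σ t + 1 := by
  simp [mem, cst, h, hp, hc]

theorem evict {t : ℕ} {p : α} (h : σ[t]? = some p) (hp : p ∉ mem k i A M0 σ t)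
    (hc : ¬ (mem k i A M0 σ t).card < k) :
    mem k i A M0 σ (t + 1) = insert p ((mem k i A M0 σ t).erase
      (A.ev (mem k i A M0 σ t) (σ.take (t + 1 + i)) t)) ∧
      cst k i A M0 σ (t + 1) = cst k i A M0 σ t + 1 := by
  simp [mem, cst, h, hp, hc]

theorem idle {t : ℕ} (h : σ[t]? = none) : mem k i A M0 σ (t + 1) = mem k i A M0 σ t := by
  simp [mem, h]

theorem req_mem {t : ℕ} {p : α} (h : σ[t]? = some p) : p ∈ mem k i A M0 σ (t + 1) := by
  by_cases hp : p ∈ mem k i A M0 σ t
  · rwa [(hit h hp).1]
  · by_cases hc : (mem k i A M0 σ t).card < k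
    · simp [(fill h hp hc).1]
    · simp [(evict h hp hc).1]

theorem mem_succ_sub {t : ℕ} {y : α} (hy : y ∈ mem k i A M0 σ (t + 1)) :
    y ∈ mem k i A M0 σ t ∨ σ[t]? = some y := by
  rcases h : σ[t]? with _ | p
  · exact Or.inl (idle (A := A) h ▸ hy)
  by_cases hp : p ∈ mem k i A M0 σ t
  · exact Or.inl ((hit h hp).1 ▸ hy)
  · by_cases hc : (mem k i A M0 σ t).card < k
    · rw [(fill h hp hc).1, mem_insert] at hy
      rcases hy with rfl | hy
      · exact Or.inr rfl
      · exact Or.inl hy
    · rw [(evict h hp hc).1, mem_insert] at hy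
      rcases hy with rfl | hy
      · exact Or.inr rfl
      · exact Or.inl (mem_of_mem_erase hy)

theorem card_evict {M : Finset α} {p w : α} (hp : p ∉ M) (hw : w ∈ M) :
    (insert p (M.erase w)).card = M.card := by
  rw [card_insert_of_notMem (fun h => hp (mem_of_mem_erase h)), card_erase_add_one hw]

theorem card_le (hk : 1 ≤ k) (h0 : M0.card ≤ k) (t : ℕ) : (mem k i A M0 σ t).card ≤ k := by
  induction t with
  | zero => exact h0
  | succ t ih =>
    rcases h : σ[t]? with _ | p
    · rwa [idle h]
    by_cases hp : p ∈ mem k i A M0 σ t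
    · rwa [(hit h hp).1]
    · by_cases hc : (mem k i A M0 σ t).card < k
      · rw [(fill h hp hc).1, card_insert_of_notMem hp]
        exact hc
      · rw [(evict h hp hc).1, card_evict hp (A.ev_mem _ _ _ (card_pos.1 (by omega)))]
        exact ih

theorem mem_take (n j : ℕ) (h : j = 0 ∨ j + i ≤ n) :
    mem k i A M0 (σ.take n) j = mem k i A M0 σ j := by
  induction j with
  | zero => rfl
  | succ j ih =>
    have h1 : j + 1 + i ≤ n := by omega
    have h2 : (σ.take n)[j]? = σ[j]? := List.getElem?_take_of_lt (by omega)
    simp only [mem, ih (Or.inr (by omega)), h2, List.take_take, min_eq_left h1]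

/-- least recently used -/
noncomputable def last (v : List α) (t : ℕ) (y : α) : ℕ :=
  ((range t).filter fun u => v[u]? = some y).sup fun u => u + 1

theorem last_le (v : List α) (t : ℕ) (y : α) : last v t y ≤ t :=
  Finset.sup_le fun u hu => mem_range.1 (mem_filter.1 hu).1

theorem last_succ {t : ℕ} {p : α} (h : σ[t]? = some p) (y : α) :
    last σ (t + 1) y = if y = p then t + 1 else last σ t y := by
  unfold last
  rw [range_add_one, filter_insert, h]
  by_cases e : y = p
  · subst e
    simp only [if_true, sup_insert]
    exact max_eq_left ((last_le σ t y).trans (Nat.le_succ t))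
  · simp [e, Ne.symm e]

theorem exists_alg [Nonempty α] (f : Finset α → List α → ℕ → α → ℕ) :
    ∃ A : Alg α, ∀ M v t, ∀ y ∈ M, f M v t y ≤ f M v t (A.ev M v t) := by
  have : ∀ (M : Finset α) v t, ∃ w, (M.Nonempty → w ∈ M) ∧ ∀ y ∈ M, f M v t y ≤ f M v t w := by
    intro M v t
    by_cases h : M.Nonempty
    · obtain ⟨w, h1, h2⟩ := exists_max_image M (f M v t) h
      exact ⟨w, fun _ => h1, h2⟩
    · exact ⟨Classical.arbitrary α, fun h' => absurd h' h, fun y hy => absurd ⟨y, hy⟩ h⟩
  choose e h1 h2 using this
  exact ⟨⟨e, h1⟩, h2⟩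

theorem lru [Nonempty α] (hk : 1 ≤ k) (h0 : M0.card ≤ k) (i l : ℕ) (B : Alg α) :
    ∃ A : Alg α, ∀ σ : List α, cost k i A M0 σ ≤ k * cost k l B M0 σ + k := by
  obtain ⟨A, hA⟩ := exists_alg (α := α) fun _ v t y => t - last v t y
  refine ⟨A, fun σ => ?_⟩
  let P : Finset α → Finset α → ℕ → Finset (α × α) := fun X Y t =>
    (X ×ˢ X).filter fun q => q.1 ∉ Y ∧ last σ t q.2 ≤ last σ t q.1
  have key : ∀ t, t ≤ σ.length → cst k i A M0 σ t + (P (mem k i A M0 σ t) (mem k l B M0 σ t) t).card
      ≤ k * cst k l B M0 σ t + (mem k i A M0 σ t).card := by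
    intro t
    induction t with
    | zero =>
      intro _
      have : P M0 M0 0 = ∅ := by
        refine filter_eq_empty_iff.2 fun q hq h => h.1 (mem_product.1 hq).1
      simp [cst, mem, this]
    | succ t ih =>
      intro ht
      have ih := ih (by omega)
      obtain ⟨p, h⟩ : ∃ p, σ[t]? = some p := ⟨_, List.getElem?_eq_getElem ht⟩
      have cA := card_le (i := i) (A := A) (σ := σ) hk h0 t
      have cB := card_le (i := l) (A := B) (σ := σ) hk h0 (t + 1)
      have pB : p ∈ mem k l B M0 σ (t + 1) := req_mem h
      set X := mem k i A M0 σ t with hX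
      set Y := mem k l B M0 σ t with hY
      set Y' := mem k l B M0 σ (t + 1) with hY'
      have s1 : (P X Y' t).card + k * cst k l B M0 σ t ≤
          (P X Y t).card + k * cst k l B M0 σ (t + 1) := by
        by_cases hp : p ∈ Y
        · rw [hY', (hit h hp).1, (hit h hp).2]
        have : ∃ y, (∀ x ∈ Y, x ≠ y → x ∈ Y') ∧
            cst k l B M0 σ (t + 1) = cst k l B M0 σ t + 1 := by
          by_cases hc : Y.card < k
          · refine ⟨p, fun x hx _ => ?_, (fill h hp hc).2⟩
            rw [hY', (fill h hp hc).1]
            exact mem_insert_of_mem hx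
          · refine ⟨B.ev Y (σ.take (t + 1 + l)) t, fun x hx hx' => ?_, (evict h hp hc).2⟩
            rw [hY', (evict h hp hc).1]
            exact mem_insert_of_mem (mem_erase.2 ⟨hx', hx⟩)
        obtain ⟨y, h1, h2⟩ := this
        have h3 : P X Y' t ⊆ P X Y t ∪ X.image fun x => (y, x) := by
          rintro ⟨a, b⟩ hq
          simp only [P, mem_filter, mem_product, mem_union, mem_image, Prod.mk.injEq] at hq ⊢
          by_cases e : a = y
          · exact Or.inr ⟨b, hq.1.2, e.symm, rfl⟩
          · exact Or.inl ⟨hq.1, fun ha => hq.2.1 (h1 a ha e), hq.2.2⟩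
        have h4 := (card_le_card h3).trans (card_union_le _ _)
        have h5 : (X.image fun x => (y, x)).card ≤ k := card_image_le.trans cA
        rw [h2, mul_add]
        omega
      have sub : ∀ X' : Finset α, ∀ q ∈ P X' Y' (t + 1), q.1 ∈ X' ∧ q.1 ≠ p ∧ q.2 ∈ X' ∧ q.2 ≠ p ∧
          q.1 ∉ Y' ∧ last σ t q.2 ≤ last σ t q.1 := by
        rintro X' ⟨a, b⟩ hq
        simp only [P, mem_filter, mem_product, last_succ h] at hq
        have ha : a ≠ p := fun e => hq.2.1 (e ▸ pB)
        have hb : b ≠ p := fun e => by
          have := hq.2.2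
          rw [if_pos e, if_neg ha] at this
          have := last_le σ t a
          omega
        have := hq.2.2
        rw [if_neg ha, if_neg hb] at this
        exact ⟨hq.1.1, ha, hq.1.2, hb, hq.2.1, this⟩
      have s2 : cst k i A M0 σ (t + 1) + (P (mem k i A M0 σ (t + 1)) Y' (t + 1)).card + X.card ≤
          cst k i A M0 σ t + (P X Y' t).card + (mem k i A M0 σ (t + 1)).card := by
        by_cases hp : p ∈ X
        · rw [(hit h hp).1, (hit h hp).2]
          have : P X Y' (t + 1) ⊆ P X Y' t := fun q hq => by
            obtain ⟨a1, -, a3, -, a5, a6⟩ := sub _ q hq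
            exact mem_filter.2 ⟨mem_product.2 ⟨a1, a3⟩, a5, a6⟩
          have := card_le_card this
          rw [← hX]
          omega
        by_cases hc : X.card < k
        · rw [(fill h hp hc).1, (fill h hp hc).2, ← hX, card_insert_of_notMem hp]
          have : P (insert p X) Y' (t + 1) ⊆ P X Y' t := fun q hq => by
            obtain ⟨a1, a2, a3, a4, a5, a6⟩ := sub _ q hq
            exact mem_filter.2 ⟨mem_product.2 ⟨(mem_insert.1 a1).resolve_left a2,
              (mem_insert.1 a3).resolve_left a4⟩, a5, a6⟩
          have := card_le_card this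
          omega
        · have hw := A.ev_mem X (σ.take (t + 1 + i)) t (card_pos.1 (by omega))
          have hm := hA X (σ.take (t + 1 + i)) t
          rw [(evict h hp hc).1, (evict h hp hc).2, ← hX, card_evict hp hw]
          set w := A.ev X (σ.take (t + 1 + i)) t
          have el : ∀ y, last (σ.take (t + 1 + i)) t y = last σ t y := fun y => by
            unfold last
            congr 1
            refine filter_congr fun u hu => ?_
            rw [List.getElem?_take_of_lt (by have := mem_range.1 hu; omega)]
          obtain ⟨z, hz1, hz2⟩ : ∃ z ∈ X, z ∉ Y' := by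
            by_contra hn
            push Not at hn
            have : insert p X ⊆ Y' := insert_subset pB hn
            have := card_le_card this
            rw [card_insert_of_notMem hp] at this
            omega
          have hz : (z, w) ∈ P X Y' t := by
            refine mem_filter.2 ⟨mem_product.2 ⟨hz1, hw⟩, hz2, ?_⟩
            have := hm z hz1
            simp only [el] at this
            have := last_le σ t z
            have := last_le σ t w
            simp only
            omega
          have : P (insert p (X.erase w)) Y' (t + 1) ⊆ (P X Y' t).erase (z, w) := fun q hq => by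
            obtain ⟨a1, a2, a3, a4, a5, a6⟩ := sub _ q hq
            have b1 := mem_erase.1 ((mem_insert.1 a1).resolve_left a2)
            have b3 := mem_erase.1 ((mem_insert.1 a3).resolve_left a4)
            refine mem_erase.2 ⟨fun e => b3.1 (by rw [e]), ?_⟩
            exact mem_filter.2 ⟨mem_product.2 ⟨b1.2, b3.2⟩, a5, a6⟩
          have := card_le_card this
          have := card_erase_add_one hz
          omega
      omega
  have := key _ le_rfl
  have := card_le (i := i) (A := A) (σ := σ) hk h0 σ.length
  rw [cost_eq, cost_eq]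
  omega

end Pool.Agent.H.MP_9bbf37_lc
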