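import Pool.Agent.H.MP_9bbf37_lc.A

namespace Pool.Agent.H.MP_9bbf37_lc

open Finset

variable {α : Type} [DecidableEq α] {k i : ℕ} {M0 : Finset α}

theorem cst_mono (A : Alg α) (σ : List α) : Monotone (cst k i A M0 σ) :=
  monotone_nat_of_le_succ fun _ => Nat.le_add_right _ _

theorem mem_sub {A : Alg α} {σ : List α} {S : Finset α} (h0 : M0 ⊆ S) (h : ∀ x ∈ σ, x ∈ S)
    (t : ℕ) : mem k i A M0 σ t ⊆ S := by
  induction t with
  | zero => exact h0
  | succ t ih =>
    intro y hy
    rcases mem_succ_sub hy with h' | h'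
    · exact ih h'
    · exact h y (List.mem_of_getElem? h')

/-- blocky sequences -/
def Blk (i N : ℕ) (P : ℕ → α) (σ : List α) : Prop :=
  σ.length = N * (i + 1) ∧ ∀ t, t < N * (i + 1) → σ[t]? = some (P (t / (i + 1)))

theorem Blk.fault {N : ℕ} {P : ℕ → α} {σ : List α} (h : Blk i N P σ) {j : ℕ} {A : Alg α} {t : ℕ}
    (ht : t < N * (i + 1)) (hp : P (t / (i + 1)) ∉ mem k j A M0 σ t) : t % (i + 1) = 0 := by
  by_contra hn
  obtain ⟨u, rfl⟩ : ∃ u, t = u + 1 := ⟨t - 1, by
    rcases t with _ | t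
    · simp at hn
    · simp⟩
  have e : u / (i + 1) = (u + 1) / (i + 1) := by
    rw [Nat.succ_div, if_neg (fun h => hn (Nat.mod_eq_zero_of_dvd h)), add_zero]
  exact hp (e ▸ req_mem (h.2 u (by omega)))

theorem Blk.mem_eq {N N' : ℕ} {P P' : ℕ → α} {σ σ' : List α} (h : Blk i N P σ)
    (h' : Blk i N' P' σ') (hN : N ≤ N') (e : ∀ b, b < N → P b = P' b) (A : Alg α) (t : ℕ)
    (ht : t ≤ N * (i + 1)) : mem k i A M0 σ t = mem k i A M0 σ' t := by
  have hle : N * (i + 1) ≤ N' * (i + 1) := Nat.mul_le_mul_right _ hN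
  have e1 : ∀ u, u < N * (i + 1) → σ[u]? = σ'[u]? := fun u hu => by
    rw [h.2 u hu, h'.2 u (by omega), e _ ((Nat.div_lt_iff_lt_mul (Nat.succ_pos i)).2 hu)]
  induction t with
  | zero => rfl
  | succ t ih =>
    have ih := ih (by omega)
    have h1 := h.2 t ht
    have h2 := (e1 t ht).symm.trans h1
    by_cases hp : P (t / (i + 1)) ∈ mem k i A M0 σ t
    · rw [(hit h1 hp).1, (hit h2 (ih ▸ hp)).1, ih]
    · have h3 := h.fault ht hp
      have h4 : t + 1 + i ≤ N * (i + 1) := by
        obtain ⟨b, rfl⟩ := Nat.dvd_of_mod_eq_zero h3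
        have : b < N := by
          by_contra hn
          have := Nat.mul_le_mul_right (i + 1) (not_lt.1 hn)
          rw [mul_comm b] at this
          omega
        have := Nat.mul_le_mul_right (i + 1) (Nat.succ_le_of_lt this)
        rw [Nat.succ_mul, mul_comm b] at this
        omega
      have h5 : σ.take (t + 1 + i) = σ'.take (t + 1 + i) := by
        refine List.ext_getElem? fun u => ?_
        by_cases hu : u < t + 1 + i
        · rw [List.getElem?_take_of_lt hu, List.getElem?_take_of_lt hu, e1 u (by omega)]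
        · rw [List.getElem?_take, List.getElem?_take, if_neg hu, if_neg hu]
      simp only [mem, h1, h2, ih, h5]

theorem exists_blk (N : ℕ) (P : ℕ → α) : ∃ σ, Blk i N P σ :=
  ⟨(List.range (N * (i + 1))).map fun t => P (t / (i + 1)), by simp, fun t ht => by
    simp [ht]⟩

theorem adversary (hk : 1 ≤ k) (h0 : M0.card ≤ k) {S : Finset α} (hS : S.card = k + 1) (A : Alg α)
    (N : ℕ) : ∃ P σ, Blk i N P σ ∧ (∀ b, P b ∈ S) ∧ N ≤ cost k i A M0 σ := by
  have : ∃ P : ℕ → α, (∀ b, P b ∈ S) ∧ ∀ σ, Blk i N P σ → ∀ b, b < N →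
      P b ∉ mem k i A M0 σ (b * (i + 1)) := by
    induction N with
    | zero =>
      obtain ⟨x, hx⟩ : S.Nonempty := card_pos.1 (by omega)
      exact ⟨fun _ => x, fun _ => hx, fun _ _ b hb => absurd hb (Nat.not_lt_zero b)⟩
    | succ N ih =>
      obtain ⟨P, h1, h2⟩ := ih
      obtain ⟨σ0, hσ⟩ := exists_blk (i := i) N P
      obtain ⟨x, hx1, hx2⟩ : ∃ x ∈ S, x ∉ mem k i A M0 σ0 (N * (i + 1)) :=
        exists_mem_notMem_of_card_lt_card (by
          have := card_le (i := i) (A := A) (σ := σ0) hk h0 (N * (i + 1))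
          omega)
      refine ⟨Function.update P N x, fun b => ?_, fun σ h b hb => ?_⟩
      · rcases eq_or_ne b N with rfl | e
        · simpa using hx1
        · simpa [e] using h1 b
      · rw [← hσ.mem_eq h (Nat.le_succ N) (fun b hb => by simp [hb.ne]) A _
          (Nat.mul_le_mul_right _ (by omega))]
        rcases eq_or_ne b N with rfl | e
        · simpa using hx2
        · simpa [e] using h2 σ0 hσ b (by omega)
  obtain ⟨P, h1, h2⟩ := this
  obtain ⟨σ, hσ⟩ := exists_blk (i := i) N P
  refine ⟨P, σ, hσ, h1, ?_⟩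
  have : ∀ b, b ≤ N → b ≤ cst k i A M0 σ (b * (i + 1)) := by
    intro b
    induction b with
    | zero => simp
    | succ b ih =>
      intro hb
      have h3 : b * (i + 1) < N * (i + 1) := Nat.mul_lt_mul_of_pos_right hb (Nat.succ_pos i)
      have h4 := hσ.2 _ h3
      rw [Nat.mul_div_cancel _ (Nat.succ_pos i)] at h4
      have h5 : cst k i A M0 σ (b * (i + 1) + 1) = cst k i A M0 σ (b * (i + 1)) + 1 := by
        simp [cst, h4, h2 σ hσ b hb]
      have h6 := cst_mono (k := k) (i := i) (M0 := M0) A σ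
        (show b * (i + 1) + 1 ≤ (b + 1) * (i + 1) by rw [Nat.succ_mul]; omega)
      have := ih (by omega)
      omega
  rw [cost_eq, hσ.1]
  exact this N le_rfl

theorem far [Nonempty α] (h0 : M0.card ≤ k) {S : Finset α} (hS : S.card = k + 1) (hs : M0 ⊆ S)
    {m l : ℕ} (hm : m + 1 ≤ k) (hl : m * (i + 1) ≤ l) : ∃ B : Alg α, ∀ N P σ, Blk i N P σ →
      (∀ b, P b ∈ S) → (m + 1) * cost k l B M0 σ ≤ N + (m + 1) * (k + 1) := by
  obtain ⟨B, hB⟩ := exists_alg (α := α) fun _ v t y =>
    if ∀ c, c < m → v[t + (c + 1) * (i + 1)]? ≠ some y then 1 else 0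
  refine ⟨B, fun N P σ hσ hP => ?_⟩
  have hk : 1 ≤ k := by omega
  have hin : ∀ x ∈ σ, x ∈ S := fun x hx => by
    obtain ⟨u, hu, rfl⟩ := List.getElem_of_mem hx
    have := hσ.2 u (hσ.1 ▸ hu)
    rw [List.getElem?_eq_getElem hu, Option.some_inj] at this
    exact this ▸ hP _
  have key : ∀ t, t ≤ N * (i + 1) → ∃ e, (m + 1) * cst k l B M0 σ t ≤
      e + (m + 1) * (mem k l B M0 σ t).card ∧ e * (i + 1) ≤ t + (m + 1) * (i + 1) ∧
      ∀ b, b < e → b < N → t < (b + 1) * (i + 1) → P b ∈ mem k l B M0 σ t := by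
    intro t
    induction t with
    | zero => exact fun _ => ⟨0, by simp [cst], by simp, fun b hb => absurd hb (Nat.not_lt_zero b)⟩
    | succ t ih =>
      intro ht
      obtain ⟨e, h1, h2, h3⟩ := ih (by omega)
      have h := hσ.2 t ht
      by_cases hp : P (t / (i + 1)) ∈ mem k l B M0 σ t
      · rw [(hit h hp).1, (hit h hp).2]
        exact ⟨e, h1, by omega, fun b a1 a2 a3 => h3 b a1 a2 (by omega)⟩
      obtain ⟨b0, rfl⟩ := Nat.dvd_of_mod_eq_zero (hσ.fault ht hp)
      rw [Nat.mul_div_cancel_left _ (Nat.succ_pos i)] at h hp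
      have hb0 : b0 < N := by
        by_contra hn
        have := Nat.mul_le_mul_right (i + 1) (not_lt.1 hn)
        rw [mul_comm b0] at this
        omega
      have he : e ≤ b0 := by
        by_contra hn
        exact hp (h3 b0 (not_le.1 hn) hb0 (by rw [add_mul b0, mul_comm b0]; omega))
      by_cases hc : (mem k l B M0 σ ((i + 1) * b0)).card < k
      · rw [(fill h hp hc).1, (fill h hp hc).2, card_insert_of_notMem hp]
        refine ⟨e, by rw [mul_add, mul_add]; omega, by omega, fun b a1 a2 a3 => ?_⟩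
        exact mem_insert_of_mem (h3 b a1 a2 (by omega))
      · have cB := card_le (i := l) (A := B) (σ := σ) hk h0 ((i + 1) * b0)
        have sB := mem_sub (k := k) (i := l) (A := B) hs hin ((i + 1) * b0)
        set M := mem k l B M0 σ ((i + 1) * b0)
        have hw := B.ev_mem M (σ.take ((i + 1) * b0 + 1 + l)) ((i + 1) * b0)
          (card_pos.1 (by omega))
        have hm' := hB M (σ.take ((i + 1) * b0 + 1 + l)) ((i + 1) * b0)
        rw [(evict h hp hc).1, (evict h hp hc).2, card_evict hp hw]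
        set v := σ.take ((i + 1) * b0 + 1 + l) with hv
        set w := B.ev M v ((i + 1) * b0)
        refine ⟨b0 + m + 1, by rw [mul_add]; omega, by
          rw [add_assoc, add_mul, mul_comm b0]; omega, fun b a1 a2 a3 => ?_⟩
        obtain ⟨y, hy1, hy2⟩ : ∃ y ∈ M, y ∉ (range m).image fun c =>
            (v[(i + 1) * b0 + (c + 1) * (i + 1)]?).getD w :=
          exists_mem_notMem_of_card_lt_card (card_image_le.trans_lt (by rw [card_range]; omega))
        have hw2 : ∀ c, c < m → v[(i + 1) * b0 + (c + 1) * (i + 1)]? ≠ some w := by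
          by_contra hn
          have := hm' y hy1
          rw [if_neg hn, if_pos] at this
          · omega
          · intro c hc e
            exact hy2 (mem_image.2 ⟨c, mem_range.2 hc, by rw [e]; rfl⟩)
        have hM : insert (P b0) M = S := eq_of_subset_of_card_le (insert_subset (hP _) sB)
          (by rw [card_insert_of_notMem hp]; omega)
        have hb : b0 ≤ b := by
          by_contra hn
          have := Nat.mul_le_mul_right (i + 1) (show b + 1 ≤ b0 by omega)
          rw [mul_comm b0] at this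
          omega
        rcases mem_insert.1 (hM ▸ hP b) with e' | e'
        · exact e' ▸ mem_insert_self _ _
        rcases hb.eq_or_lt with rfl | hb
        · exact mem_insert_self _ _
        refine mem_insert_of_mem (mem_erase.2 ⟨fun e2 => ?_, e'⟩)
        obtain ⟨c, rfl⟩ := Nat.exists_eq_add_of_lt hb
        have e3 : (i + 1) * b0 + (c + 1) * (i + 1) = (b0 + c + 1) * (i + 1) := by ring
        refine hw2 c (by omega) ?_
        have h7 : (c + 1) * (i + 1) ≤ m * (i + 1) := Nat.mul_le_mul_right _ (by omega)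
        rw [hv, List.getElem?_take_of_lt (by omega), e3,
          hσ.2 _ (Nat.mul_lt_mul_of_pos_right a2 (Nat.succ_pos i)),
          Nat.mul_div_cancel _ (Nat.succ_pos i), e2]
  obtain ⟨e, h1, h2, -⟩ := key _ le_rfl
  have cB := card_le (i := l) (A := B) (σ := σ) hk h0 (N * (i + 1))
  rw [cost_eq, hσ.1]
  rw [← add_mul] at h2
  have h3 := Nat.le_of_mul_le_mul_right h2 (Nat.succ_pos i)
  have h4 := Nat.mul_le_mul_left (m + 1) cB
  rw [mul_add (m + 1) k]
  omega

end Pool.Agent.H.MP_9bbf37_lc
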