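import Pool.Agent.H.MP_9bbf37_lc.B

namespace Pool.Agent.H.MP_9bbf37_lc

open Finset

variable {α : Type}

def R (s : Multiset α) (Z : α → Prop) : Prop := s.Nodup ∧ ∀ a, a ∈ s ↔ Z a

theorem R.cons {s : Multiset α} {Z Z' : α → Prop} {a : α} (h : R s Z) (ha : ¬ Z a)
    (e : ∀ x, Z' x ↔ x = a ∨ Z x) : R (a ::ₘ s) Z' :=
  ⟨Multiset.nodup_cons.2 ⟨fun h' => ha ((h.2 a).1 h'), h.1⟩, fun x => by
    rw [Multiset.mem_cons, e, h.2]⟩

theorem R.tail {s : Multiset α} {Z : α → Prop} {a : α} (h : R (a ::ₘ s) Z) :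
    R s (fun x => x ≠ a ∧ Z x) ∧ Z a := by
  have h1 := Multiset.nodup_cons.1 h.1
  refine ⟨⟨h1.2, fun x => ?_⟩, (h.2 a).1 (Multiset.mem_cons_self _ _)⟩
  simp only [← h.2, Multiset.mem_cons]
  constructor
  · exact fun hx => ⟨fun e => h1.1 (e ▸ hx), Or.inr hx⟩
  · exact fun hx => hx.2.resolve_left hx.1

theorem R.congr {s : Multiset α} {Z Z' : α → Prop} (h : R s Z) (e : ∀ x, Z' x ↔ Z x) : R s Z' :=
  ⟨h.1, fun x => by rw [e, h.2]⟩

def Mt (L : Multiset (α × α × ℕ)) (X Y : Finset α) : Prop :=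
  R (L.map fun q => q.1) (fun a => a ∈ X ∧ a ∉ Y) ∧ R (L.map fun q => q.2.1) (fun a => a ∈ Y ∧ a ∉ X)

theorem Mt.fst {L : Multiset (α × α × ℕ)} {X Y : Finset α} (h : Mt L X Y) {a : α} (h1 : a ∈ X)
    (h2 : a ∉ Y) : ∃ x s L0, L = (a, x, s) ::ₘ L0 := by
  obtain ⟨⟨a, x, s⟩, hq, rfl⟩ := Multiset.mem_map.1 ((h.1.2 a).2 ⟨h1, h2⟩)
  obtain ⟨L0, h⟩ := Multiset.exists_cons_of_mem hq
  exact ⟨x, s, L0, h⟩

theorem Mt.snd {L : Multiset (α × α × ℕ)} {X Y : Finset α} (h : Mt L X Y) {a : α} (h1 : a ∈ Y)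
    (h2 : a ∉ X) : ∃ z s L0, L = (z, a, s) ::ₘ L0 := by
  obtain ⟨⟨z, a, s⟩, hq, rfl⟩ := Multiset.mem_map.1 ((h.2.2 a).2 ⟨h1, h2⟩)
  obtain ⟨L0, h⟩ := Multiset.exists_cons_of_mem hq
  exact ⟨z, s, L0, h⟩

theorem Mt.of_mem {L : Multiset (α × α × ℕ)} {X Y : Finset α} (h : Mt L X Y) {q : α × α × ℕ}
    (hq : q ∈ L) : (q.1 ∈ X ∧ q.1 ∉ Y) ∧ q.2.1 ∈ Y ∧ q.2.1 ∉ X :=
  ⟨(h.1.2 _).1 (Multiset.mem_map_of_mem _ hq), (h.2.2 _).1 (Multiset.mem_map_of_mem _ hq)⟩

variable [DecidableEq α]

theorem moveA {L : Multiset (α × α × ℕ)} {X Y : Finset α} (h : Mt L X Y) {p w : α} (hp : p ∈ Y)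
    (hp' : p ∉ X) (hw : w ∈ X) : ∃ z s L0, L = (z, p, s) ::ₘ L0 ∧
      ((w = z ∧ Mt L0 (insert p (X.erase w)) Y) ∨
       (w ∈ Y ∧ Mt ((z, w, s) ::ₘ L0) (insert p (X.erase w)) Y) ∨
       ∃ x s' L1, L0 = (w, x, s') ::ₘ L1 ∧ w ≠ z ∧
        Mt ((z, x, s) ::ₘ L1) (insert p (X.erase w)) Y) := by
  obtain ⟨z, s, L0, rfl⟩ := h.snd hp hp'
  refine ⟨z, s, L0, rfl, ?_⟩
  obtain ⟨h1, h2⟩ := h
  rw [Multiset.map_cons] at h1 h2
  obtain ⟨h3, h4⟩ := h1.tail
  obtain ⟨h5, h6⟩ := h2.tail
  simp only at h3 h4 h5 h6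
  by_cases e : w = z
  · subst e
    refine Or.inl ⟨rfl, h3.congr fun x => ?_, h5.congr fun x => ?_⟩ <;>
      simp only [mem_insert, mem_erase] <;> grind
  by_cases hy : w ∈ Y
  · refine Or.inr (Or.inl ⟨hy, ?_, ?_⟩) <;> rw [Multiset.map_cons]
    · refine h1.congr fun x => ?_
      simp only [mem_insert, mem_erase]
      grind
    · refine h5.cons (by grind) fun x => ?_
      simp only [mem_insert, mem_erase]
      grind
  · obtain ⟨⟨w, x, s'⟩, hq, rfl⟩ := Multiset.mem_map.1 ((h3.2 w).2 ⟨e, hw, hy⟩)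
    obtain ⟨L1, rfl⟩ := Multiset.exists_cons_of_mem hq
    refine Or.inr (Or.inr ⟨x, s', L1, rfl, e, ?_, ?_⟩) <;> rw [Multiset.map_cons] at *
    · obtain ⟨h7, h8⟩ := h3.tail
      refine h7.cons (by grind) fun x => ?_
      simp only [mem_insert, mem_erase]
      grind
    · refine h5.congr fun x => ?_
      simp only [mem_insert, mem_erase]
      grind

theorem moveB {L : Multiset (α × α × ℕ)} {X Y : Finset α} (h : Mt L X Y) {p y : α} (hp : p ∉ Y)
    (hy : y ∈ Y) (t : ℕ) : ∃ L' L0, Mt L' X (insert p (Y.erase y)) ∧ L0 ≤ L ∧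
      (L' = L0 ∨ ∃ z x s, L' = (z, x, s) ::ₘ L0 ∧ (s = t ∨ ∃ x', (z, x', s) ∈ L)) := by
  by_cases h1 : p ∈ X
  · obtain ⟨x, s, L0, rfl⟩ := h.fst h1 hp
    obtain ⟨h1, h2⟩ := h
    rw [Multiset.map_cons] at h1 h2
    obtain ⟨h3, h4⟩ := h1.tail
    obtain ⟨h5, h6⟩ := h2.tail
    simp only at h3 h4 h5 h6
    by_cases h7 : y ∈ X
    · refine ⟨(y, x, t) ::ₘ L0, L0, ⟨?_, ?_⟩, Multiset.le_cons_self _ _,
        Or.inr ⟨_, _, _, rfl, Or.inl rfl⟩⟩ <;> rw [Multiset.map_cons]
      · refine h3.cons (by grind) fun x => ?_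
        simp only [mem_insert, mem_erase]
        grind
      · refine h2.congr fun x => ?_
        simp only [mem_insert, mem_erase]
        grind
    by_cases e : y = x
    · subst e
      refine ⟨L0, L0, ⟨h3.congr fun x => ?_, h5.congr fun x => ?_⟩, Multiset.le_cons_self _ _,
        Or.inl rfl⟩ <;> simp only [mem_insert, mem_erase] <;> grind
    · obtain ⟨⟨z, y, s'⟩, hq, rfl⟩ := Multiset.mem_map.1 ((h5.2 y).2 ⟨e, hy, h7⟩)
      obtain ⟨L1, rfl⟩ := Multiset.exists_cons_of_mem hq
      refine ⟨(z, x, s') ::ₘ L1, L1, ⟨?_, ?_⟩,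
        (Multiset.le_cons_self _ _).trans (Multiset.le_cons_self _ _),
        Or.inr ⟨_, _, _, rfl, Or.inr ⟨y, by simp⟩⟩⟩ <;> rw [Multiset.map_cons] at *
      · refine h3.congr fun x => ?_
        simp only [mem_insert, mem_erase]
        grind
      · obtain ⟨h8, h9⟩ := h5.tail
        refine h8.cons (by grind) fun x => ?_
        simp only [mem_insert, mem_erase]
        grind
  by_cases h7 : y ∈ X
  · refine ⟨(y, p, t) ::ₘ L, L, ⟨?_, ?_⟩, le_rfl, Or.inr ⟨_, _, _, rfl, Or.inl rfl⟩⟩ <;>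
      rw [Multiset.map_cons]
    · refine h.1.cons (by grind) fun x => ?_
      simp only [mem_insert, mem_erase]
      grind
    · refine h.2.cons (by grind) fun x => ?_
      simp only [mem_insert, mem_erase]
      grind
  · obtain ⟨z, s, L0, rfl⟩ := h.snd hy h7
    obtain ⟨h2, h3⟩ := h
    rw [Multiset.map_cons] at h2 h3
    obtain ⟨h5, h6⟩ := h3.tail
    refine ⟨(z, p, s) ::ₘ L0, L0, ⟨?_, ?_⟩, Multiset.le_cons_self _ _,
      Or.inr ⟨_, _, _, rfl, Or.inr ⟨y, by simp⟩⟩⟩ <;> rw [Multiset.map_cons]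
    · refine h2.congr fun x => ?_
      simp only [mem_insert, mem_erase]
      grind
    · refine h5.cons (by grind) fun x => ?_
      simp only [mem_insert, mem_erase]
      grind

open Classical in
noncomputable def nx (σ : List α) (F t : ℕ) (y : α) : ℕ :=
  if h : ∃ u, t ≤ u ∧ σ[u]? = some y then Nat.find h else F

variable {σ : List α} {F t : ℕ} {y : α}

theorem nx_le {u : ℕ} (h1 : t ≤ u) (h2 : σ[u]? = some y) : nx σ F t y ≤ u := by
  classical
  have h : ∃ u, t ≤ u ∧ σ[u]? = some y := ⟨u, h1, h2⟩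
  rw [nx, dif_pos h]
  exact Nat.find_min' h ⟨h1, h2⟩

theorem nx_spec (σ : List α) (F t : ℕ) (y : α) :
    nx σ F t y = F ∨ (t ≤ nx σ F t y ∧ σ[nx σ F t y]? = some y) := by
  classical
  unfold nx
  split_ifs with h
  · exact Or.inr (Nat.find_spec h)
  · exact Or.inl rfl

theorem nx_succ {p : α} (h : σ[t]? = some p) (e : y ≠ p) : nx σ F (t + 1) y = nx σ F t y := by
  have : ∀ u, (t + 1 ≤ u ∧ σ[u]? = some y) ↔ (t ≤ u ∧ σ[u]? = some y) := fun u => by
    refine ⟨fun h => ⟨by omega, h.2⟩, fun h' => ⟨?_, h'.2⟩⟩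
    rcases h'.1.eq_or_lt with rfl | h2
    · exact absurd (Option.some.inj (h'.2.symm.trans h)) e
    · exact h2
  unfold nx
  by_cases h1 : ∃ u, t ≤ u ∧ σ[u]? = some y
  · have h2 : ∃ u, t + 1 ≤ u ∧ σ[u]? = some y := by simpa only [this] using h1
    rw [dif_pos h1, dif_pos h2]
    exact le_antisymm (Nat.find_min' h2 ((this _).2 (Nat.find_spec h1)))
      (Nat.find_min' h1 ((this _).1 (Nat.find_spec h2)))
  · rw [dif_neg h1, dif_neg (by simpa only [this] using h1)]

theorem nx_take {n : ℕ} (hF : n ≤ F) : min (nx (σ.take n) n t y) n = min (nx σ F t y) n := by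
  have a1 := nx_spec (σ.take n) n t y
  have a2 := nx_spec σ F t y
  have a3 : nx σ F t y < n → nx (σ.take n) n t y ≤ nx σ F t y := fun h => by
    rcases a2 with a2 | a2
    · omega
    · exact nx_le a2.1 ((List.getElem?_take_of_lt h).trans a2.2)
  have a4 : nx (σ.take n) n t y < n → nx σ F t y ≤ nx (σ.take n) n t y := fun h => by
    rcases a1 with a1 | a1
    · omega
    · exact nx_le a1.1 ((List.getElem?_take_of_lt h).symm.trans a1.2)
  omega

def Fc (i l : ℕ) (n : α → ℕ) (τ : ℕ) (q : α × α × ℕ) : ℕ :=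
  if n q.1 < n q.2.1 ∧ n q.1 ≤ τ then 0 else 1 + (q.2.2 + l - n q.2.1) / (i + 1)

omit [DecidableEq α] in
theorem Fc_le (i l : ℕ) (n : α → ℕ) (τ : ℕ) (q : α × α × ℕ) {m : ℕ} (h : m ≤ n q.2.1) :
    Fc i l n τ q ≤ 1 + (q.2.2 + l - m) / (i + 1) := by
  unfold Fc
  split_ifs
  · exact Nat.zero_le _
  · exact Nat.add_le_add_left (Nat.div_le_div_right (by omega)) _

theorem delayed [Nonempty α] {k : ℕ} {M0 : Finset α} (hk : 1 ≤ k) (h0 : M0.card ≤ k) (i l : ℕ)
    (B : Alg α) : ∃ A : Alg α, ∀ σ : List α,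
      cost k i A M0 σ ≤ (l / (i + 1) + 1) * cost k l B M0 σ := by
  classical
  let K : List α → ℕ → α → Prop := fun v t y => y ∉ mem k l B M0 v (t + 1 - (l - i)) ∧
    ∀ u, t + 1 - (l - i) ≤ u → u ≤ t → v[u]? ≠ some y
  obtain ⟨A, hA⟩ := exists_alg (α := α) fun _ v t y =>
    2 * min (nx v (t + 1 + i) (t + 1) y) (t + 1 + i) + if K v t y then 1 else 0
  refine ⟨A, fun σ => ?_⟩
  let n : ℕ → α → ℕ := nx σ (σ.length + i + 1)
  have key : ∀ t, t ≤ σ.length →
      ((mem k i A M0 σ t).card < k ∧ mem k i A M0 σ t = mem k l B M0 σ t ∧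
        cst k i A M0 σ t = cst k l B M0 σ t) ∨
      ((mem k i A M0 σ t).card = k ∧ (mem k l B M0 σ t).card = k ∧ ∃ L,
        Mt L (mem k i A M0 σ t) (mem k l B M0 σ t) ∧
        (∀ q ∈ L, q.2.2 ≤ t ∧ ∀ u, q.2.2 < u → u ≤ t → q.1 ∉ mem k l B M0 σ u) ∧
        cst k i A M0 σ t + (L.map (Fc i l (n t) (t + i))).sum ≤
          (l / (i + 1) + 1) * cst k l B M0 σ t) := by
    have zero : ∀ X : Finset α, Mt 0 X X := fun X => ⟨⟨by simp, by simp⟩, ⟨by simp, by simp⟩⟩
    intro t
    induction t with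
    | zero =>
      intro _
      rcases h0.lt_or_eq with h | h
      · exact Or.inl ⟨h, rfl, rfl⟩
      · exact Or.inr ⟨h, h, 0, zero _, by simp, by simp [cst]⟩
    | succ t ih =>
      intro ht
      obtain ⟨p, h⟩ : ∃ p, σ[t]? = some p := ⟨_, List.getElem?_eq_getElem ht⟩
      rcases ih (by omega) with ⟨c1, c2, c3⟩ | ⟨c1, c2, L, hL, age, pot⟩
      · by_cases hp : p ∈ mem k i A M0 σ t
        · rw [(hit h hp).1, (hit h hp).2, (hit h (c2 ▸ hp)).1, (hit h (c2 ▸ hp)).2]
          exact Or.inl ⟨c1, c2, c3⟩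
        · have e1 := fill h hp c1
          have e2 := fill (i := l) (A := B) h (c2 ▸ hp) (c2 ▸ c1)
          have e3 : mem k i A M0 σ (t + 1) = mem k l B M0 σ (t + 1) := by rw [e1.1, e2.1, c2]
          have e4 : cst k i A M0 σ (t + 1) = cst k l B M0 σ (t + 1) := by rw [e1.2, e2.2, c3]
          rcases (card_le (i := i) (A := A) (σ := σ) hk h0 (t + 1)).lt_or_eq with h' | h'
          · exact Or.inl ⟨h', e3, e4⟩
          · refine Or.inr ⟨h', e3 ▸ h', 0, e3 ▸ zero _, by simp, ?_⟩
            rw [e4, add_mul]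
            simp
      right
      have pB : p ∈ mem k l B M0 σ (t + 1) := req_mem h
      have nt : ∀ y, t ≤ n t y := fun y => by
        have := nx_spec σ (σ.length + i + 1) t y
        simp only [n]
        omega
      have np : n t p = t := le_antisymm (nx_le le_rfl h) (nt p)
      have ns : ∀ y, y ≠ p → n (t + 1) y = n t y := fun y e => nx_succ h e
      set X := mem k i A M0 σ t with hX
      set Y := mem k l B M0 σ t with hY
      set Y' := mem k l B M0 σ (t + 1) with hY'
      have s1 : Y'.card = k ∧ ∃ L', Mt L' X Y' ∧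
          (∀ q ∈ L', q.2.2 ≤ t ∧ ∀ u, q.2.2 < u → u ≤ t + 1 → q.1 ∉ mem k l B M0 σ u) ∧
          cst k i A M0 σ t + (L'.map (Fc i l (n t) (t + i))).sum ≤
            (l / (i + 1) + 1) * cst k l B M0 σ (t + 1) := by
        have ext : ∀ L' : Multiset (α × α × ℕ), Mt L' X Y' →
            (∀ q ∈ L', q.2.2 ≤ t ∧ ∀ u, q.2.2 < u → u ≤ t → q.1 ∉ mem k l B M0 σ u) →
            ∀ q ∈ L', q.2.2 ≤ t ∧ ∀ u, q.2.2 < u → u ≤ t + 1 → q.1 ∉ mem k l B M0 σ u := by
          intro L' h1 h2 q hq
          refine ⟨(h2 q hq).1, fun u a1 a2 => ?_⟩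
          rcases a2.eq_or_lt with rfl | a2
          · exact (h1.of_mem hq).1.2
          · exact (h2 q hq).2 u a1 (by omega)
        by_cases hp : p ∈ Y
        · have e : Y' = Y := (hit h hp).1
          refine ⟨e ▸ c2, L, e ▸ hL, ext L (e ▸ hL) age, ?_⟩
          rwa [(hit h hp).2]
        have e := evict (i := l) (A := B) h hp c2.not_lt
        have hy := B.ev_mem Y (σ.take (t + 1 + l)) t (card_pos.1 (by omega))
        obtain ⟨L', L0, a1, a2, a3⟩ := moveB hL hp hy t
        rw [← e.1] at a1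
        refine ⟨by rw [hY', e.1, card_evict hp hy, c2], L', a1, ext L' a1 ?_, ?_⟩
        · rcases a3 with rfl | ⟨z, x, s, rfl, a3⟩
          · exact fun q hq => age q (Multiset.mem_of_le a2 hq)
          · intro q hq
            rcases Multiset.mem_cons.1 hq with rfl | hq
            · rcases a3 with rfl | ⟨x', a3⟩
              · exact ⟨le_rfl, fun u b1 b2 => absurd b2 (not_le.2 b1)⟩
              · exact age (z, x', s) a3
            · exact age q (Multiset.mem_of_le a2 hq)
        · have b1 : (L0.map (Fc i l (n t) (t + i))).sum ≤ (L.map (Fc i l (n t) (t + i))).sum := by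
            obtain ⟨L2, rfl⟩ := Multiset.le_iff_exists_add.1 a2
            simp
          rw [e.2, mul_add, mul_one]
          rcases a3 with rfl | ⟨z, x, s, rfl, a3⟩
          · have := Nat.zero_le (l / (i + 1))
            omega
          · have b2 : s ≤ t := by
              rcases a3 with rfl | ⟨x', a3⟩
              · exact le_rfl
              · exact (age _ a3).1
            have b3 := Fc_le i l (n t) (t + i) (z, x, s) (nt x)
            have b4 : (s + l - t) / (i + 1) ≤ l / (i + 1) := Nat.div_le_div_right (by omega)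
            rw [Multiset.map_cons, Multiset.sum_cons]
            simp only at b3
            omega
      obtain ⟨c3, L', hL', age', pot'⟩ := s1
      have mono : ∀ L0 : Multiset (α × α × ℕ), (∀ q ∈ L0, q.1 ≠ p ∧ q.2.1 ≠ p) →
          (L0.map (Fc i l (n (t + 1)) (t + 1 + i))).sum ≤ (L0.map (Fc i l (n t) (t + i))).sum := by
        intro L0 h1
        refine Multiset.sum_map_le_sum_map _ _ fun q hq => ?_
        simp only [Fc, ns _ (h1 q hq).1, ns _ (h1 q hq).2]
        have := Nat.zero_le ((q.2.2 + l - n t q.2.1) / (i + 1))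
        split_ifs <;> omega
      have ne : ∀ (L0 : Multiset (α × α × ℕ)) (X' : Finset α), Mt L0 X' Y' → p ∈ X' →
          ∀ q ∈ L0, q.1 ≠ p ∧ q.2.1 ≠ p := fun L0 X' h1 h2 q hq =>
        ⟨fun e => (h1.of_mem hq).1.2 (e ▸ pB), fun e => (h1.of_mem hq).2.2 (e ▸ h2)⟩
      by_cases hp : p ∈ X
      · rw [(hit h hp).1, (hit h hp).2]
        refine ⟨c1, c3, L', hL', fun q hq => ⟨by have := (age' q hq).1; omega, (age' q hq).2⟩, ?_⟩
        have := mono L' (ne L' X hL' hp)
        omega
      have e := evict (i := i) (A := A) h hp c1.not_lt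
      have hw := A.ev_mem X (σ.take (t + 1 + i)) t (card_pos.1 (by omega))
      have hm := hA X (σ.take (t + 1 + i)) t
      rw [e.1, e.2, ← hX, card_evict hp hw]
      set w := A.ev X (σ.take (t + 1 + i)) t
      have eK : ∀ y, K (σ.take (t + 1 + i)) t y ↔ K σ t y := fun y => by
        simp only [K]
        rw [mem_take _ _ (by omega)]
        refine and_congr_right fun _ => forall_congr' fun u => forall_congr' fun _ =>
          forall_congr' fun hu => ?_
        rw [List.getElem?_take_of_lt (by omega)]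
      have hm' : ∀ y ∈ X, 2 * min (n t y) (t + 1 + i) + (if K σ t y then 1 else 0) ≤
          2 * min (n t w) (t + 1 + i) + if K σ t w then 1 else 0 := fun y hy => by
        have := hm y hy
        simp only [eK] at this
        rwa [nx_take (F := σ.length + i + 1) (by omega), nx_take (F := σ.length + i + 1) (by omega),
          nx_succ h (ne_of_mem_of_not_mem hy hp), nx_succ h (ne_of_mem_of_not_mem hw hp)] at this
      have K1 : ∀ y, K σ t y → y ∉ Y' := fun y hy => by
        have : ∀ u, t + 1 - (l - i) ≤ u → u ≤ t + 1 → y ∉ mem k l B M0 σ u := by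
          intro u hu
          induction u, hu using Nat.le_induction with
          | base => exact fun _ => hy.1
          | succ u hu ih =>
            intro h1 h2
            rcases mem_succ_sub h2 with h3 | h3
            · exact ih (by omega) h3
            · exact hy.2 u hu (by omega) h3
        exact this _ (by omega) le_rfl
      have inj : ∀ y y', n t y ≤ t + i → n t y = n t y' → y = y' := fun y y' h1 h2 => by
        have a1 := nx_spec σ (σ.length + i + 1) t y
        have a2 := nx_spec σ (σ.length + i + 1) t y'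
        simp only [n] at h1 h2
        rcases a1 with a1 | a1
        · omega
        rcases a2 with a2 | a2
        · omega
        exact Option.some.inj (a1.2.symm.trans (h2 ▸ a2.2))
      obtain ⟨z, s, L0, rfl, a1⟩ := moveA hL' pB hp hw
      have hz := hL'.of_mem (Multiset.mem_cons_self _ _)
      have az := age' _ (Multiset.mem_cons_self _ _)
      simp only at hz az
      have zp : z ≠ p := ne_of_mem_of_not_mem hz.1.1 hp
      have wp : w ≠ p := ne_of_mem_of_not_mem hw hp
      have f0 : Fc i l (n t) (t + i) (z, p, s) = 1 + (s + l - t) / (i + 1) := by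
        have := nt z
        simp only [Fc, np]
        rw [if_neg (by omega)]
      have early : w ≠ z → n t w ≤ t + i → n t z < n t w := fun e1 e2 => by
        have b1 := hm' z hz.1.1
        have b2 : n t w ≠ n t z := fun e => e1 (inj _ _ e2 e)
        split_ifs at b1 <;> omega
      rw [Multiset.map_cons, Multiset.sum_cons, f0] at pot'
      have agez : ∀ x (L1 : Multiset (α × α × ℕ)), L1 ≤ L0 → ∀ q ∈ (z, x, s) ::ₘ L1,
          q.2.2 ≤ t + 1 ∧ ∀ u, q.2.2 < u → u ≤ t + 1 → q.1 ∉ mem k l B M0 σ u := by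
        intro x L1 h1 q hq
        rcases Multiset.mem_cons.1 hq with rfl | hq
        · exact ⟨by simp only; omega, az.2⟩
        · have := age' q (Multiset.mem_cons_of_mem (Multiset.mem_of_le h1 hq))
          exact ⟨by omega, this.2⟩
      refine ⟨c1, c3, ?_⟩
      rcases a1 with ⟨-, a1⟩ | ⟨a0, a1⟩ | ⟨x, s', L1, rfl, a0, a1⟩
      · refine ⟨L0, a1, fun q hq => agez p L0 le_rfl q (Multiset.mem_cons_of_mem hq), ?_⟩
        have := mono L0 (ne L0 _ a1 (mem_insert_self _ _))
        have := Nat.zero_le ((s + l - t) / (i + 1))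
        omega
      · refine ⟨_, a1, agez w L0 le_rfl, ?_⟩
        have b1 := mono L0 fun q hq => ne _ _ a1 (mem_insert_self _ _) q
          (Multiset.mem_cons_of_mem hq)
        have wz : w ≠ z := ne_of_mem_of_not_mem a0 hz.1.2
        have b2 : Fc i l (n (t + 1)) (t + 1 + i) (z, w, s) ≤ (s + l - t) / (i + 1) := by
          simp only [Fc, ns _ zp, ns _ wp]
          split_ifs with b3
          · exact Nat.zero_le _
          have b4 : t + i < n t w := by
            by_contra hn
            have := early wz (not_lt.1 hn)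
            omega
          have b5 : ¬ K σ t z := fun hK => by
            have b6 := hm' z hz.1.1
            rw [if_pos hK, if_neg fun h => K1 w h a0] at b6
            omega
          have b6 : t + i + 1 ≤ s + l := by
            by_contra hn
            refine b5 ⟨az.2 _ (by omega) (by omega), fun u d1 d2 d3 => ?_⟩
            exact az.2 (u + 1) (by omega) (by omega) (req_mem d3)
          have b7 : s + l - t = (s + l - t - (i + 1)) + (i + 1) := by omega
          rw [b7, Nat.add_div_right _ (Nat.succ_pos i), add_comm]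
          exact Nat.add_le_add_right (Nat.div_le_div_right (by omega)) _
        rw [Multiset.map_cons, Multiset.sum_cons]
        omega
      · refine ⟨_, a1, agez x L1 (Multiset.le_cons_self _ _), ?_⟩
        have b1 := mono L1 fun q hq => ne _ _ a1 (mem_insert_self _ _) q
          (Multiset.mem_cons_of_mem hq)
        have xp : x ≠ p := (ne _ _ a1 (mem_insert_self _ _) _ (Multiset.mem_cons_self _ _)).2
        have b2 : Fc i l (n (t + 1)) (t + 1 + i) (z, x, s) ≤
            (s + l - t) / (i + 1) + Fc i l (n t) (t + i) (w, x, s') := by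
          by_cases b3 : n t w < n t x ∧ n t w ≤ t + i
          · have := early a0 b3.2
            simp only [Fc, ns _ zp, ns _ xp]
            rw [if_pos (by omega)]
            exact Nat.zero_le _
          · have b4 := Fc_le i l (n (t + 1)) (t + 1 + i) (z, x, s) (m := t)
              (by simp only [ns _ xp]; exact nt x)
            have b5 : 1 ≤ Fc i l (n t) (t + i) (w, x, s') := by
              simp only [Fc, if_neg b3]
              exact Nat.le_add_right _ _
            simp only at b4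
            omega
        rw [Multiset.map_cons, Multiset.sum_cons] at pot' ⊢
        omega
  rw [cost_eq, cost_eq]
  rcases key _ le_rfl with ⟨-, -, h⟩ | ⟨-, -, L, -, -, h⟩
  · rw [h, add_mul]
    omega
  · omega

end Pool.Agent.H.MP_9bbf37_lc
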