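import Mathlib

namespace Pool.Agent.H.MP_9bbf37_lc

open scoped NNReal ENNReal

variable {α : Type} [DecidableEq α]

/-- an eviction rule: current memory, visible part of the request sequence, current time -/
structure Alg (α : Type) where
  ev : Finset α → List α → ℕ → α
  ev_mem : ∀ M v t, M.Nonempty → ev M v t ∈ M

/-- memory contents after `t` requests of `σ`; memory size `k`, lookahead `i`, start `M0` -/
def mem (k i : ℕ) (A : Alg α) (M0 : Finset α) (σ : List α) : ℕ → Finset α
  | 0 => M0
  | t + 1 =>
    let M := mem k i A M0 σ t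
    match σ[t]? with
    | none => M
    | some p =>
      if p ∈ M then M else if M.card < k then insert p M
      else insert p (M.erase (A.ev M (σ.take (t + 1 + i)) t))

/-- number of faults -/
def cost (k i : ℕ) (A : Alg α) (M0 : Finset α) (σ : List α) : ℕ :=
  (Finset.univ.filter fun t : Fin σ.length => σ[t] ∉ mem k i A M0 σ t).card

/-- the ratio of `A` with lookahead `i` against `B` with lookahead `l` -/
noncomputable def ratio (k i l : ℕ) (M0 : Finset α) (A B : Alg α) : ℝ≥0∞ :=
  ⨅ (c : ℝ≥0) (_ : ∃ b : ℝ, ∀ σ : List α,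
    (cost k i A M0 σ : ℝ) ≤ c * (cost k l B M0 σ : ℝ) + b), (c : ℝ≥0∞)

/-- the comparative ratio of lookahead `i` against lookahead `l` -/
noncomputable def comp (k i l : ℕ) (M0 : Finset α) : ℝ≥0∞ :=
  ⨆ B : Alg α, ⨅ A : Alg α, ratio k i l M0 A B

end Pool.Agent.H.MP_9bbf37_lc
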